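import Mathlib
import Pool.Agent.H.MP_cd2c38_gt.B

set_option autoImplicit false

namespace Pool.Agent.Results.MP_cd2c38_gt.Seven

open Pool.Agent.H.MP_cd2c38_gt

/-- A taut embedding of real projective 3-space into the unit sphere of dimension 7 whose image lies
in no affine hyperplane. -/
theorem result : ∃ f : RP3 → EuclideanSpace ℝ (Fin 8), IsEmb f ∧ (∀ y, ‖f y‖ = 1) ∧
    affineSpan ℝ (Set.range f) = ⊤ ∧ Taut f :=
  seven

end Pool.Agent.Results.MP_cd2c38_gt.Seven
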